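import Pool.Agent.H63.Quad.BPlan

set_option autoImplicit false

/-!
# B5a: approximate log-convexity in the genus from the decomposition with free factors
-/

namespace Pool.Agent.H51.Quad

open Pool.Agent.H63.Quad Finset Filter Topology Polynomial

/-- term of the decomposition -/
noncomputable def tt (W : ℕ → ℕ → ℝ) (x0 : ℝ) (a b g : ℕ) : ℝ :=
  if b ≤ g then W a b * (((a.choose (g - b) : ℕ) : ℝ) * 6 ^ (a - (g - b)) * x0 ^ (g - b)) else 0

theorem coeff_pow_lin (x0 : ℝ) (a j : ℕ) :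
    ((C (6 : ℝ) + C x0 * X) ^ a).coeff j = ((a.choose j : ℕ) : ℝ) * 6 ^ (a - j) * x0 ^ j := by
  have h : (C (6 : ℝ) + C x0 * X) ^ a = ((X + C (6 : ℝ)) ^ a).comp (C x0 * X) := by
    rw [pow_comp, add_comp, X_comp, C_comp, add_comm]
  rw [h, comp_C_mul_X_coeff, coeff_X_add_C_pow]
  ring

theorem coeff_Q (P : ℝ[X][X]) (Q : ℝ[X]) (x0 : ℝ) (h : P.eval (C 6 + C x0 * X) = Q) (A : ℕ)
    (hA : P.natDegree < A) (B g : ℕ) (hB : g < B) :
    Q.coeff g = ∑ a ∈ range A, ∑ b ∈ range B, tt (fun a b => (P.coeff a).coeff b) x0 a b g := by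
  rw [← h, eval_eq_sum_range' hA, finsetSum_coeff]
  refine sum_congr rfl fun a _ => ?_
  rw [coeff_mul, Finset.Nat.sum_antidiagonal_eq_sum_range_succ_mk]
  have hsub : range (g + 1) ⊆ range B := range_subset_range.mpr hB
  rw [← sum_subset hsub]
  · refine sum_congr rfl fun b hb => ?_
    have hb' : b ≤ g := Nat.lt_succ_iff.mp (mem_range.mp hb)
    simp only [tt, if_pos hb', coeff_pow_lin]
  · intro b _ hb
    have hb' : ¬ b ≤ g := fun hle => hb (mem_range.mpr (Nat.lt_succ_of_le hle))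
    simp only [tt, if_neg hb']

theorem eval2_Q (P : ℝ[X][X]) (y z : ℝ) (A : ℕ) (hA : P.natDegree < A) (B : ℕ)
    (hB : ∀ a ∈ range A, (P.coeff a).natDegree < B) :
    (P.eval (C y)).eval z = ∑ a ∈ range A, ∑ b ∈ range B, (P.coeff a).coeff b * z ^ b * y ^ a := by
  rw [eval_eq_sum_range' hA, eval_finsetSum]
  refine sum_congr rfl fun a ha => ?_
  rw [eval_mul, eval_pow, eval_C, eval_eq_sum_range' (hB a ha), sum_mul]

theorem choose_sq (a j : ℕ) (h1 : 1 ≤ j) (h2 : j + 1 ≤ a) (r : ℝ) (hr : 0 < r) (hj : r ≤ j)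
    (ha : r ≤ (a : ℝ) - j) :
    ((a.choose j : ℕ) : ℝ) ^ 2 ≤ (1 + 1 / r) ^ 2 *
      (((a.choose (j - 1) : ℕ) : ℝ) * ((a.choose (j + 1) : ℕ) : ℝ)) := by
  obtain ⟨i, rfl⟩ : ∃ i, j = i + 1 := ⟨j - 1, by omega⟩
  have e1 : ((a.choose (i + 1) : ℕ) : ℝ) * ((i : ℝ) + 1) = (a.choose i : ℕ) * ((a : ℝ) - i) := by
    have := Nat.choose_succ_right_eq a i
    have h3 : ((a.choose (i + 1) * (i + 1) : ℕ) : ℝ) = ((a.choose i * (a - i) : ℕ) : ℝ) := by
      rw [this]
    push_cast [Nat.cast_sub (show i ≤ a by omega)] at h3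
    exact h3
  have e2 : ((a.choose (i + 1 + 1) : ℕ) : ℝ) * ((i : ℝ) + 2) = (a.choose (i + 1) : ℕ) * ((a : ℝ) - (i + 1)) := by
    have := Nat.choose_succ_right_eq a (i + 1)
    have h3 : ((a.choose (i + 1 + 1) * (i + 1 + 1) : ℕ) : ℝ) = ((a.choose (i + 1) * (a - (i + 1)) : ℕ) : ℝ) := by
      rw [this]
    push_cast [Nat.cast_sub (show i + 1 ≤ a by omega)] at h3
    rw [← h3]; ring
  have hidx : i + 1 - 1 = i := by omega
  rw [hidx]
  push_cast at hj ha
  set c0 : ℝ := ((a.choose i : ℕ) : ℝ) with hc0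
  set c1 : ℝ := ((a.choose (i + 1) : ℕ) : ℝ) with hc1
  set c2 : ℝ := ((a.choose (i + 1 + 1) : ℕ) : ℝ) with hc2
  have hc0n : 0 ≤ c0 := Nat.cast_nonneg _
  have hc1n : 0 ≤ c1 := Nat.cast_nonneg _
  have hc2n : 0 ≤ c2 := Nat.cast_nonneg _
  have p1 : 0 < (i : ℝ) + 1 := by positivity
  have p2 : 0 < (a : ℝ) - (i + 1) := lt_of_lt_of_le hr ha
  have b1 : c1 ≤ (1 + 1 / r) * (c0 * (((a : ℝ) - (i + 1)) / ((i : ℝ) + 1))) := by
    have : c1 = c0 * ((a : ℝ) - i) / ((i : ℝ) + 1) := by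
      rw [eq_div_iff p1.ne', e1]
    rw [this, mul_div_assoc, mul_div_assoc', mul_div_assoc', mul_div_assoc', ]
    apply div_le_div_of_nonneg_right _ p1.le
    have h5 : (a : ℝ) - i ≤ (1 + 1 / r) * ((a : ℝ) - (i + 1)) := by
      have : 1 ≤ 1 / r * ((a : ℝ) - (i + 1)) := by
        rw [one_div, ← div_eq_inv_mul, one_le_div hr]; exact ha
      nlinarith
    calc c0 * ((a : ℝ) - i) ≤ c0 * ((1 + 1 / r) * ((a : ℝ) - (i + 1))) :=
          mul_le_mul_of_nonneg_left h5 hc0n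
      _ = (1 + 1 / r) * (c0 * ((a : ℝ) - (i + 1))) := by ring
  have b2 : c1 ≤ (1 + 1 / r) * (c2 * (((i : ℝ) + 1) / ((a : ℝ) - (i + 1)))) := by
    have : c1 = c2 * ((i : ℝ) + 2) / ((a : ℝ) - (i + 1)) := by
      rw [eq_div_iff p2.ne', e2]
    rw [this, mul_div_assoc', mul_div_assoc']
    apply div_le_div_of_nonneg_right _ p2.le
    have h5 : (i : ℝ) + 2 ≤ (1 + 1 / r) * ((i : ℝ) + 1) := by
      have : 1 ≤ 1 / r * ((i : ℝ) + 1) := by
        rw [one_div, ← div_eq_inv_mul, one_le_div hr]; exact hj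
      nlinarith
    calc c2 * ((i : ℝ) + 2) ≤ c2 * ((1 + 1 / r) * ((i : ℝ) + 1)) :=
          mul_le_mul_of_nonneg_left h5 hc2n
      _ = (1 + 1 / r) * (c2 * ((i : ℝ) + 1)) := by ring
  calc c1 ^ 2 = c1 * c1 := by ring
    _ ≤ ((1 + 1 / r) * (c0 * (((a : ℝ) - (i + 1)) / ((i : ℝ) + 1)))) *
        ((1 + 1 / r) * (c2 * (((i : ℝ) + 1) / ((a : ℝ) - (i + 1))))) := by
          apply mul_le_mul b1 b2 hc1n
          positivity
    _ = (1 + 1 / r) ^ 2 * (c0 * c2) := by
          field_simp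

theorem key (P : ℝ[X][X]) (hnn : ∀ a b, 0 ≤ (P.coeff a).coeff b) (Q : ℝ[X]) (x0 z s r : ℝ)
    (hx0 : 0 ≤ x0) (hz : 0 < z) (hr : 0 < r) (hQ : P.eval (C 6 + C x0 * X) = Q)
    (hs1 : 6 + x0 * z / 2 ≤ s * (6 + x0 * z)) (hs2 : 3 + x0 * z ≤ s * (6 + x0 * z)) (g : ℕ) :
    Q.coeff (g + 1) * z ^ (g + 1) ≤
      (1 + 1 / r) * (Real.sqrt (Q.coeff g * z ^ g) * Real.sqrt (Q.coeff (g + 2) * z ^ (g + 2)))
        + Real.exp r * (P.eval (C (s * (6 + x0 * z)))).eval z := by
  set W : ℕ → ℕ → ℝ := fun a b => (P.coeff a).coeff b with hW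
  set A := P.natDegree + 1 with hAdef
  have hA : P.natDegree < A := Nat.lt_succ_self _
  set B := g + 3 + ∑ a ∈ range A, (P.coeff a).natDegree with hBdef
  have hB1 : g < B := by omega
  have hB2 : g + 1 < B := by omega
  have hB3 : g + 2 < B := by omega
  have hB : ∀ a ∈ range A, (P.coeff a).natDegree < B := by
    intro a ha
    have := single_le_sum (f := fun a => (P.coeff a).natDegree) (fun _ _ => Nat.zero_le _) ha
    omega
  set T : ℕ → ℕ → ℕ → ℝ := fun a b k => tt W x0 a b k * z ^ k with hT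
  have hTnn : ∀ a b k, 0 ≤ T a b k := by
    intro a b k
    simp only [hT, tt]
    split_ifs
    · have := hnn a b
      simp only [hW]
      positivity
    · simp
  set v := x0 * z with hv
  have hvn : 0 ≤ v := mul_nonneg hx0 hz.le
  have hsum : ∀ k, k < B → Q.coeff k * z ^ k = ∑ p ∈ range A ×ˢ range B, T p.1 p.2 k := by
    intro k hk
    rw [coeff_Q P Q x0 hQ A hA B k hk, sum_product, sum_mul]
    refine sum_congr rfl fun a _ => ?_
    rw [sum_mul]
  have hpt : ∀ p ∈ range A ×ˢ range B, T p.1 p.2 (g + 1) ≤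
      (1 + 1 / r) * (Real.sqrt (T p.1 p.2 g) * Real.sqrt (T p.1 p.2 (g + 2)))
        + Real.exp r * (W p.1 p.2 * z ^ p.2 * (s * (6 + v)) ^ p.1) := by
    rintro ⟨a, b⟩ -
    simp only
    have hWn : 0 ≤ W a b := hnn a b
    have h6v : 0 < 6 + v := by positivity
    have hsn : 0 ≤ s * (6 + v) := le_trans (by positivity) hs2
    have hn2 : 0 ≤ Real.exp r * (W a b * z ^ b * (s * (6 + v)) ^ a) := by positivity
    have hn1 : 0 ≤ (1 + 1 / r) * (Real.sqrt (T a b g) * Real.sqrt (T a b (g + 2))) := by positivity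
    by_cases hb : b ≤ g + 1
    swap
    · have : T a b (g + 1) = 0 := by simp [hT, tt, hb]
      rw [this]; positivity
    obtain ⟨j, hj⟩ : ∃ j, g + 1 = b + j := ⟨g + 1 - b, by omega⟩
    have hT1 : T a b (g + 1) = W a b * z ^ b * (((a.choose j : ℕ) : ℝ) * 6 ^ (a - j) * v ^ j) := by
      simp only [hT, tt, if_pos hb]
      rw [show g + 1 - b = j by omega, hj, pow_add, hv, mul_pow]
      ring
    by_cases hja : j ≤ a
    swap
    · have : T a b (g + 1) = 0 := by
        rw [hT1, Nat.choose_eq_zero_of_lt (by omega)]; simp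
      rw [this]; positivity
    by_cases hbad1 : (j : ℝ) < r
    · -- bad pair of the first kind
      have h1 : ((a.choose j : ℕ) : ℝ) * 6 ^ (a - j) * (v / 2) ^ j ≤ (6 + v / 2) ^ a := by
        rw [add_comm, add_pow]
        refine le_trans (le_of_eq ?_) (single_le_sum (f := fun m => (v / 2) ^ m * (6 : ℝ) ^ (a - m) * ((a.choose m : ℕ) : ℝ)) (fun m _ => by positivity) (mem_range.mpr (Nat.lt_succ_of_le hja)))
        ring
      have h2 : (2 : ℝ) ^ j ≤ Real.exp r := by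
        have e1 : (2 : ℝ) ≤ Real.exp 1 := by
          have := Real.add_one_le_exp (1 : ℝ); linarith
        calc (2 : ℝ) ^ j ≤ (Real.exp 1) ^ j := pow_le_pow_left₀ (by norm_num) e1 _
          _ = Real.exp j := by rw [← Real.exp_nat_mul, mul_one]
          _ ≤ Real.exp r := Real.exp_le_exp.mpr hbad1.le
      have h3 : ((a.choose j : ℕ) : ℝ) * 6 ^ (a - j) * v ^ j ≤ Real.exp r * (s * (6 + v)) ^ a := by
        calc ((a.choose j : ℕ) : ℝ) * 6 ^ (a - j) * v ^ j
            = (2 : ℝ) ^ j * (((a.choose j : ℕ) : ℝ) * 6 ^ (a - j) * (v / 2) ^ j) := by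
              rw [div_pow]; field_simp
          _ ≤ Real.exp r * (6 + v / 2) ^ a := by
              apply mul_le_mul h2 h1 (by positivity) (Real.exp_pos _).le
          _ ≤ Real.exp r * (s * (6 + v)) ^ a := by
              apply mul_le_mul_of_nonneg_left _ (Real.exp_pos _).le
              exact pow_le_pow_left₀ (by positivity) hs1 _
      have h4 : T a b (g + 1) ≤ Real.exp r * (W a b * z ^ b * (s * (6 + v)) ^ a) := by
        rw [hT1]
        calc W a b * z ^ b * (((a.choose j : ℕ) : ℝ) * 6 ^ (a - j) * v ^ j)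
            ≤ W a b * z ^ b * (Real.exp r * (s * (6 + v)) ^ a) :=
              mul_le_mul_of_nonneg_left h3 (by positivity)
          _ = _ := by ring
      linarith
    push Not at hbad1
    by_cases hbad2 : (a : ℝ) - j < r
    · have h1 : ((a.choose j : ℕ) : ℝ) * 3 ^ (a - j) * v ^ j ≤ (3 + v) ^ a := by
        rw [add_comm, add_pow]
        refine le_trans (le_of_eq ?_) (single_le_sum (f := fun m => v ^ m * (3 : ℝ) ^ (a - m) * ((a.choose m : ℕ) : ℝ)) (fun m _ => by positivity) (mem_range.mpr (Nat.lt_succ_of_le hja)))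
        ring
      have h2 : (2 : ℝ) ^ (a - j) ≤ Real.exp r := by
        have e1 : (2 : ℝ) ≤ Real.exp 1 := by
          have := Real.add_one_le_exp (1 : ℝ); linarith
        calc (2 : ℝ) ^ (a - j) ≤ (Real.exp 1) ^ (a - j) := pow_le_pow_left₀ (by norm_num) e1 _
          _ = Real.exp ((a - j : ℕ) : ℝ) := by rw [← Real.exp_nat_mul, mul_one]
          _ ≤ Real.exp r := by
              apply Real.exp_le_exp.mpr
              rw [Nat.cast_sub hja]; exact hbad2.le
      have h3 : ((a.choose j : ℕ) : ℝ) * 6 ^ (a - j) * v ^ j ≤ Real.exp r * (s * (6 + v)) ^ a := by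
        calc ((a.choose j : ℕ) : ℝ) * 6 ^ (a - j) * v ^ j
            = (2 : ℝ) ^ (a - j) * (((a.choose j : ℕ) : ℝ) * 3 ^ (a - j) * v ^ j) := by
              rw [show (6 : ℝ) = 2 * 3 by norm_num, mul_pow]; ring
          _ ≤ Real.exp r * (3 + v) ^ a := by
              apply mul_le_mul h2 h1 (by positivity) (Real.exp_pos _).le
          _ ≤ Real.exp r * (s * (6 + v)) ^ a := by
              apply mul_le_mul_of_nonneg_left _ (Real.exp_pos _).le
              exact pow_le_pow_left₀ (by positivity) hs2 _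
      have h4 : T a b (g + 1) ≤ Real.exp r * (W a b * z ^ b * (s * (6 + v)) ^ a) := by
        rw [hT1]
        calc W a b * z ^ b * (((a.choose j : ℕ) : ℝ) * 6 ^ (a - j) * v ^ j)
            ≤ W a b * z ^ b * (Real.exp r * (s * (6 + v)) ^ a) :=
              mul_le_mul_of_nonneg_left h3 (by positivity)
          _ = _ := by ring
      linarith
    push Not at hbad2
    -- good pair
    have hj1 : 1 ≤ j := by
      have : (0 : ℝ) < j := lt_of_lt_of_le hr hbad1
      exact_mod_cast this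
    have hja1 : j + 1 ≤ a := by
      have : (j : ℝ) < a := by linarith
      exact_mod_cast this
    obtain ⟨i, rfl⟩ : ∃ i, j = i + 1 := ⟨j - 1, by omega⟩
    have hT0 : T a b g = W a b * z ^ b * (((a.choose i : ℕ) : ℝ) * 6 ^ (a - i) * v ^ i) := by
      have hbg : b ≤ g := by omega
      simp only [hT, tt, if_pos hbg]
      rw [show g - b = i by omega, show g = b + i by omega, pow_add, hv, mul_pow]
      ring
    have hT2 : T a b (g + 2) = W a b * z ^ b * (((a.choose (i + 1 + 1) : ℕ) : ℝ) * 6 ^ (a - (i + 1 + 1)) * v ^ (i + 1 + 1)) := by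
      have hbg : b ≤ g + 2 := by omega
      simp only [hT, tt, if_pos hbg]
      rw [show g + 2 - b = i + 1 + 1 by omega, show g + 2 = b + (i + 1 + 1) by omega, pow_add z b, hv, mul_pow]
      ring
    have hc := choose_sq a (i + 1) hj1 hja1 r hr hbad1 hbad2
    rw [show i + 1 - 1 = i by omega] at hc
    have hsq : T a b (g + 1) ^ 2 ≤ (1 + 1 / r) ^ 2 * (T a b g * T a b (g + 2)) := by
      rw [hT1, hT0, hT2]
      obtain ⟨k, hk⟩ : ∃ k, a = i + 1 + 1 + k := ⟨a - (i + 1 + 1), by omega⟩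
      have q1 : a - (i + 1) = k + 1 := by omega
      have q0 : a - i = k + 2 := by omega
      have q2 : a - (i + 1 + 1) = k := by omega
      rw [q1, q0, q2]
      have hW2 : 0 ≤ (W a b * z ^ b) ^ 2 * (6 ^ (2 * k + 2) * v ^ (2 * i + 2)) := by positivity
      calc (W a b * z ^ b * (((a.choose (i + 1) : ℕ) : ℝ) * 6 ^ (k + 1) * v ^ (i + 1))) ^ 2
          = (W a b * z ^ b) ^ 2 * (6 ^ (2 * k + 2) * v ^ (2 * i + 2)) * ((a.choose (i + 1) : ℕ) : ℝ) ^ 2 := by ring
        _ ≤ (W a b * z ^ b) ^ 2 * (6 ^ (2 * k + 2) * v ^ (2 * i + 2)) * ((1 + 1 / r) ^ 2 *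
              (((a.choose i : ℕ) : ℝ) * ((a.choose (i + 1 + 1) : ℕ) : ℝ))) :=
            mul_le_mul_of_nonneg_left hc hW2
        _ = _ := by ring
    have h5 : T a b (g + 1) ≤ (1 + 1 / r) * (Real.sqrt (T a b g) * Real.sqrt (T a b (g + 2))) := by
      have h1r : 0 ≤ 1 + 1 / r := by positivity
      rw [← Real.sqrt_mul (hTnn a b g), ← Real.sqrt_sq h1r, ← Real.sqrt_mul (by positivity)]
      apply Real.le_sqrt_of_sq_le
      exact hsq
    linarith
  have hS := sum_le_sum hpt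
  rw [← hsum (g + 1) hB2, sum_add_distrib, ← mul_sum, ← mul_sum] at hS
  have hCS := Real.sum_sqrt_mul_sqrt_le (range A ×ˢ range B) (f := fun p => T p.1 p.2 g)
    (g := fun p => T p.1 p.2 (g + 2)) (fun p => hTnn _ _ _) (fun p => hTnn _ _ _)
  rw [← hsum g hB1, ← hsum (g + 2) hB3] at hCS
  have hE : (P.eval (C (s * (6 + v)))).eval z =
      ∑ p ∈ range A ×ˢ range B, W p.1 p.2 * z ^ p.2 * (s * (6 + v)) ^ p.1 := by
    rw [eval2_Q P _ z A hA B hB, sum_product]
  rw [hE]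
  have h1r : 0 ≤ 1 + 1 / r := by positivity
  have := mul_le_mul_of_nonneg_left hCS h1r
  linarith

theorem numeric (u α : ℝ) (hu0 : 0 < u) (hu1 : u ≤ 1) (hα0 : 0 < α) :
    ((1 + 2 * u) * (1 + α * u)) ^ 2 ≤ 1 + 9 * (1 + α) ^ 2 * u := by
  have huu : u * u ≤ u := by nlinarith
  have h13 : (1 + 2 * u) * (1 + α * u) ≤ 1 + (2 + 3 * α) * u := by
    have : α * (u * u) ≤ α * u := mul_le_mul_of_nonneg_left huu hα0.le
    linarith [show (1 + 2 * u) * (1 + α * u) = 1 + (2 + α) * u + 2 * (α * (u * u)) by ring]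
  have h14 : ((1 + 2 * u) * (1 + α * u)) ^ 2 ≤ (1 + (2 + 3 * α) * u) ^ 2 :=
    pow_le_pow_left₀ (by positivity) h13 2
  have h15 : (1 + (2 + 3 * α) * u) ^ 2 ≤ 1 + ((2 + 3 * α) * 2 + (2 + 3 * α) ^ 2) * u := by
    have : (2 + 3 * α) ^ 2 * (u * u) ≤ (2 + 3 * α) ^ 2 * u := mul_le_mul_of_nonneg_left huu (sq_nonneg _)
    linarith [show (1 + (2 + 3 * α) * u) ^ 2 = 1 + (2 + 3 * α) * 2 * u + (2 + 3 * α) ^ 2 * (u * u) by ring]
  have h17 : (2 + 3 * α) * 2 + (2 + 3 * α) ^ 2 ≤ 9 * (1 + α) ^ 2 := by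
    linarith [show 9 * (1 + α) ^ 2 - ((2 + 3 * α) * 2 + (2 + 3 * α) ^ 2) = 1 by ring]
  have h16 : ((2 + 3 * α) * 2 + (2 + 3 * α) ^ 2) * u ≤ 9 * (1 + α) ^ 2 * u :=
    mul_le_mul_of_nonneg_right h17 hu0.le
  linarith

theorem ALC_of_Free (UU : ℕ → Polynomial (Polynomial ℝ)) (hU : Free UU) : ALC := by
  intro t1 t2 ht1 ht12
  have ht2 : 0 < t2 := ht1.trans ht12
  -- parameters
  set v0 : ℝ := t1 ^ 2 / 9 with hv0
  have hv0p : 0 < v0 := by positivity
  set s1 : ℝ := (6 + v0 / 2) / (6 + v0) with hs1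
  set s2 : ℝ := (3 + t2 ^ 2) / (6 + t2 ^ 2) with hs2
  set s : ℝ := max s1 s2 with hs
  have hs1p : 0 < s1 := by positivity
  have hs1l : s1 < 1 := by rw [hs1, div_lt_one (by positivity)]; linarith
  have hs2l : s2 < 1 := by rw [hs2, div_lt_one (by positivity)]; linarith
  have hsp : 0 < s := lt_of_lt_of_le hs1p (le_max_left _ _)
  have hsl : s < 1 := max_lt hs1l hs2l
  obtain ⟨c0, hc0, hdec⟩ := hU.decay t1 t2 s ht1 ht12 hsp hsl
  set κ : ℝ := c0 / 2 with hκ
  have hκp : 0 < κ := by positivity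
  refine ⟨9 * (1 + 1 / κ) ^ 2, c0 / 4, by positivity, by positivity, ?_⟩
  -- eventually facts
  have hlarge : ∀ M : ℝ, ∀ᶠ N : ℕ in atTop, ∀ n : ℕ, t1 * N ≤ n → M ≤ n := by
    intro M
    have : Tendsto (fun N : ℕ => t1 * (N : ℝ)) atTop atTop :=
      tendsto_natCast_atTop_atTop.const_mul_atTop ht1
    filter_upwards [this.eventually_ge_atTop M] with N hN n hn
    exact hN.trans hn
  have hexp : ∃ M : ℝ, ∀ x : ℝ, M ≤ x → x * Real.exp (-(c0 / 4) * x) ≤ 1 := by
    have h1 := Real.tendsto_pow_mul_exp_neg_atTop_nhds_zero 1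
    have h2 : Tendsto (fun x : ℝ => c0 / 4 * x) atTop atTop := tendsto_id.const_mul_atTop (by positivity)
    have h3 := h1.comp h2
    have h4 : Tendsto (fun x : ℝ => x * Real.exp (-(c0 / 4) * x)) atTop (𝓝 0) := by
      have h5 := h3.const_mul (4 / c0)
      rw [mul_zero] at h5
      refine h5.congr fun x => ?_
      simp only [Function.comp, pow_one]
      rw [show -(c0 / 4 * x) = -(c0 / 4) * x by ring]
      field_simp
    have h6 := h4.eventually (ge_mem_nhds (show (0 : ℝ) < 1 by norm_num))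
    obtain ⟨M, hM⟩ := (h6.exists_forall_of_atTop)
    exact ⟨M, fun x hx => hM x hx⟩
  obtain ⟨M, hM⟩ := hexp
  filter_upwards [hdec, hlarge 3, hlarge M, eventually_gt_atTop 0] with N hdN hn3 hnM hN0 n hn1 hn2 g hg
  have hNp : (0 : ℝ) < N := by exact_mod_cast hN0
  have h3 : (3 : ℝ) ≤ n := hn3 n hn1
  have hnp : (0 : ℝ) < n := by linarith
  have hMn : (M : ℝ) ≤ n := hnM n hn1
  have hy := yN_pos N n
  set z : ℝ := 1 / (N : ℝ) ^ 2 with hz
  have hzp : 0 < z := by positivity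
  set x0 : ℝ := ((n / 2 : ℕ) : ℝ) ^ 2 with hx0
  have hx0n : 0 ≤ x0 := by positivity
  -- bounds on v = x0 z
  have hdiv1 : (n : ℝ) / 3 ≤ ((n / 2 : ℕ) : ℝ) := by
    have hn3' : 3 ≤ n := by exact_mod_cast h3
    have : n ≤ 3 * (n / 2) := by omega
    have h' : (n : ℝ) ≤ 3 * ((n / 2 : ℕ) : ℝ) := by exact_mod_cast this
    linarith
  have hdiv2 : ((n / 2 : ℕ) : ℝ) ≤ n := by
    exact_mod_cast Nat.div_le_self n 2
  have hv1 : v0 ≤ x0 * z := by
    have e : x0 * z = (((n / 2 : ℕ) : ℝ) / N) ^ 2 := by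
      rw [hx0, hz, div_pow]; ring
    rw [e, hv0]
    have : t1 / 3 ≤ ((n / 2 : ℕ) : ℝ) / N := by
      rw [le_div_iff₀ hNp]; linarith
    have h6 := pow_le_pow_left₀ (by positivity) this 2
    calc t1 ^ 2 / 9 = (t1 / 3) ^ 2 := by ring
      _ ≤ _ := h6
  have hv2 : x0 * z ≤ t2 ^ 2 := by
    have e : x0 * z = (((n / 2 : ℕ) : ℝ) / N) ^ 2 := by
      rw [hx0, hz, div_pow]; ring
    rw [e]
    apply pow_le_pow_left₀ (by positivity)
    rw [div_le_iff₀ hNp]; linarith
  have h6v : 0 < 6 + x0 * z := by linarith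
  have hs1' : 6 + x0 * z / 2 ≤ s * (6 + x0 * z) := by
    have : s1 * (6 + x0 * z) ≤ s * (6 + x0 * z) := mul_le_mul_of_nonneg_right (le_max_left _ _) h6v.le
    refine le_trans ?_ this
    rw [hs1, div_mul_eq_mul_div, le_div_iff₀ (by positivity)]
    nlinarith
  have hs2' : 3 + x0 * z ≤ s * (6 + x0 * z) := by
    have : s2 * (6 + x0 * z) ≤ s * (6 + x0 * z) := mul_le_mul_of_nonneg_right (le_max_right _ _) h6v.le
    refine le_trans ?_ this
    rw [hs2, div_mul_eq_mul_div, le_div_iff₀ (by positivity)]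
    nlinarith
  have hkey := key (UU n) (hU.nonneg n) (Qp n) x0 z s (κ * n) hx0n hzp (by positivity) (hU.eval_eq n)
    hs1' hs2' g
  have hd := hdN n hn1 hn2
  -- rewrite in terms of the weights
  have hw : ∀ k, (Qp n).coeff k * z ^ k = wN N n k * yN N n := by
    intro k; unfold wN; rw [div_mul_cancel₀ _ hy.ne']
  rw [hw, hw, hw] at hkey
  have hwn : ∀ k, 0 ≤ wN N n k := by
    intro k; unfold wN
    have := Qp_coeff_nonneg n k
    positivity
  set w0 := wN N n g with hw0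
  set w1 := wN N n (g + 1) with hw1
  set w2 := wN N n (g + 2) with hw2
  have hsq : Real.sqrt (w0 * yN N n) * Real.sqrt (w2 * yN N n) = Real.sqrt (w0 * w2) * yN N n := by
    rw [Real.sqrt_mul (hwn g), Real.sqrt_mul (hwn (g + 2)), Real.sqrt_mul (hwn g)]
    have := Real.mul_self_sqrt hy.le
    calc √w0 * √(yN N n) * (√w2 * √(yN N n)) = √w0 * √w2 * (√(yN N n) * √(yN N n)) := by ring
      _ = _ := by rw [this]
  rw [hsq] at hkey
  have hbad : Real.exp (κ * n) * ((UU n).eval (C (s * (6 + x0 * z)))).eval z ≤ 1 / n * w1 * yN N n := by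
    calc Real.exp (κ * n) * ((UU n).eval (C (s * (6 + x0 * z)))).eval z
        ≤ Real.exp (κ * n) * (Real.exp (-c0 * n) * yN N n) :=
          mul_le_mul_of_nonneg_left hd (Real.exp_pos _).le
      _ = Real.exp (-(c0 / 4) * n) * Real.exp (-(c0 / 4) * n) * yN N n := by
          rw [← mul_assoc, ← Real.exp_add, ← Real.exp_add]
          congr 2
          rw [hκ]; ring
      _ ≤ 1 / n * w1 * yN N n := by
          apply mul_le_mul_of_nonneg_right _ hy.le
          apply mul_le_mul _ hg (Real.exp_pos _).le (by positivity)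
          rw [le_div_iff₀ hnp, mul_comm]
          exact hM n hMn
  have h7 : w1 ≤ (1 + 1 / (κ * n)) * Real.sqrt (w0 * w2) + 1 / n * w1 := by
    have : w1 * yN N n ≤ ((1 + 1 / (κ * n)) * Real.sqrt (w0 * w2) + 1 / n * w1) * yN N n := by
      calc w1 * yN N n ≤ _ := hkey
        _ ≤ (1 + 1 / (κ * n)) * (Real.sqrt (w0 * w2) * yN N n) + 1 / n * w1 * yN N n := by
            linarith
        _ = _ := by ring
    exact le_of_mul_le_mul_right this hy
  have h8 : w1 ≤ (1 + 2 / n) * ((1 + 1 / (κ * n)) * Real.sqrt (w0 * w2)) := by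
    have h9 : w1 * (1 - 1 / n) ≤ (1 + 1 / (κ * n)) * Real.sqrt (w0 * w2) := by linarith
    have h10 : w1 ≤ (1 + 2 / n) * (w1 * (1 - 1 / n)) := by
      have hw1n := hwn (g + 1)
      have : 1 ≤ (1 + 2 / (n : ℝ)) * (1 - 1 / n) := by
        have e : (1 + 2 / (n : ℝ)) * (1 - 1 / n) = 1 + (n - 2) / n ^ 2 := by
          field_simp; ring
        rw [e]
        have : 0 ≤ ((n : ℝ) - 2) / n ^ 2 := div_nonneg (by linarith) (by positivity)
        linarith
      calc w1 = w1 * 1 := by ring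
        _ ≤ w1 * ((1 + 2 / (n : ℝ)) * (1 - 1 / n)) := mul_le_mul_of_nonneg_left this hw1n
        _ = _ := by ring
    exact h10.trans (mul_le_mul_of_nonneg_left h9 (by positivity))
  have hw1n := hwn (g + 1)
  have h11 : w1 ^ 2 ≤ ((1 + 2 / n) * (1 + 1 / (κ * n))) ^ 2 * (w0 * w2) := by
    have h12 := pow_le_pow_left₀ hw1n h8 2
    refine h12.trans (le_of_eq ?_)
    have : Real.sqrt (w0 * w2) ^ 2 = w0 * w2 := Real.sq_sqrt (mul_nonneg (hwn _) (hwn _))
    rw [mul_pow, mul_pow, this, mul_pow]; ring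
  refine h11.trans (mul_le_mul_of_nonneg_right ?_ (mul_nonneg (hwn _) (hwn _)))
  -- (1+2/n)^2 (1+1/(κ n))^2 ≤ 1 + K/n
  set u : ℝ := 1 / n with hu
  have hu0 : 0 < u := by positivity
  have hu1 : u ≤ 1 := by
    rw [hu, div_le_one hnp]; linarith
  set α : ℝ := 1 / κ with hα
  have hα0 : 0 < α := by positivity
  have e1 : 2 / (n : ℝ) = 2 * u := by rw [hu]; ring
  have e2 : 1 / (κ * n) = α * u := by rw [hu, hα]; field_simp
  have e3 : 9 * (1 + α) ^ 2 / (n : ℝ) = 9 * (1 + α) ^ 2 * u := by rw [hu]; ring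
  rw [e1, e2, e3]
  exact numeric u α hu0 hu1 hα0

end Pool.Agent.H51.Quad
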