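import Pool.Agent.H63.Quad.BPlan

set_option autoImplicit false

/-!
# B5b: approximate log-convexity and concentration of the genus give the ratio limit
-/

namespace Pool.Agent.H51.Quad

open Pool.Agent.H63.Quad Finset Filter Topology Polynomial

/-- Walk lemma in exponential form. -/
theorem walk (h : ℕ → ℝ) (L : ℕ) (l k0 C A : ℝ) (hk0 : 0 ≤ k0) (hA : Real.exp (-A) ≤ h 0)
    (h1 : Real.exp l * h 0 ≤ h 1)
    (hh : ∀ i, i + 2 ≤ L → Real.exp (-C) ≤ h (i + 1) → h (i + 1) ^ 2 ≤ Real.exp k0 * (h i * h (i + 2)))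
    (hC : ∀ i : ℕ, i ≤ L → -C ≤ l * i - k0 * (i : ℝ) ^ 2 - A) :
    ∀ i : ℕ, i ≤ L → Real.exp (l * i - k0 * (i : ℝ) ^ 2) * h 0 ≤ h i := by
  have h0p : 0 < h 0 := lt_of_lt_of_le (Real.exp_pos _) hA
  have key : ∀ i : ℕ, i + 1 ≤ L → (Real.exp (l * i - k0 * (i : ℝ) ^ 2) * h 0 ≤ h i) ∧
      (Real.exp (l - k0 * i) * h i ≤ h (i + 1)) := by
    intro i
    induction i with
    | zero =>
      intro _
      simp only [Nat.cast_zero, mul_zero, ne_eq, OfNat.ofNat_ne_zero, not_false_eq_true, zero_pow,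
        sub_zero, Real.exp_zero, one_mul, le_refl, true_and, zero_add]
      exact h1
    | succ i ih =>
      intro hi
      obtain ⟨ha, hb⟩ := ih (by omega)
      have hip : 0 < h i := lt_of_lt_of_le (by positivity) ha
      have hi1 : Real.exp (l * ((i + 1 : ℕ) : ℝ) - k0 * ((i + 1 : ℕ) : ℝ) ^ 2) * h 0 ≤ h (i + 1) := by
        refine le_trans ?_ hb
        calc Real.exp (l * ((i + 1 : ℕ) : ℝ) - k0 * ((i + 1 : ℕ) : ℝ) ^ 2) * h 0
            ≤ Real.exp (l - k0 * i + (l * i - k0 * (i : ℝ) ^ 2)) * h 0 := by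
              apply mul_le_mul_of_nonneg_right _ h0p.le
              apply Real.exp_le_exp.mpr
              push_cast
              have : 0 ≤ k0 * ((i : ℝ) + 1) := by positivity
              nlinarith
          _ = Real.exp (l - k0 * i) * (Real.exp (l * i - k0 * (i : ℝ) ^ 2) * h 0) := by
              rw [Real.exp_add]; ring
          _ ≤ _ := mul_le_mul_of_nonneg_left ha (Real.exp_pos _).le
      refine ⟨hi1, ?_⟩
      have hge : Real.exp (-C) ≤ h (i + 1) := by
        calc Real.exp (-C) ≤ Real.exp (l * ((i + 1 : ℕ) : ℝ) - k0 * ((i + 1 : ℕ) : ℝ) ^ 2 - A) :=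
              Real.exp_le_exp.mpr (hC (i + 1) (by omega))
          _ = Real.exp (l * ((i + 1 : ℕ) : ℝ) - k0 * ((i + 1 : ℕ) : ℝ) ^ 2) * Real.exp (-A) := by
              rw [← Real.exp_add]; rfl
          _ ≤ Real.exp (l * ((i + 1 : ℕ) : ℝ) - k0 * ((i + 1 : ℕ) : ℝ) ^ 2) * h 0 :=
              mul_le_mul_of_nonneg_left hA (Real.exp_pos _).le
          _ ≤ _ := hi1
      have hsq := hh i (by omega) hge
      have hi1p : 0 < h (i + 1) := lt_of_lt_of_le (Real.exp_pos _) hge
      have h3 : Real.exp (l - k0 * ((i + 1 : ℕ) : ℝ)) * h (i + 1) * (Real.exp k0 * h i) ≤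
          h (i + 2) * (Real.exp k0 * h i) := by
        calc Real.exp (l - k0 * ((i + 1 : ℕ) : ℝ)) * h (i + 1) * (Real.exp k0 * h i)
            = h (i + 1) * (Real.exp (l - k0 * i) * h i) := by
              have : Real.exp (l - k0 * ((i + 1 : ℕ) : ℝ)) * Real.exp k0 = Real.exp (l - k0 * i) := by
                rw [← Real.exp_add]; congr 1; push_cast; ring
              rw [← this]; ring
          _ ≤ h (i + 1) * h (i + 1) := mul_le_mul_of_nonneg_left hb hi1p.le
          _ = h (i + 1) ^ 2 := by ring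
          _ ≤ Real.exp k0 * (h i * h (i + 2)) := hsq
          _ = _ := by ring
      exact le_of_mul_le_mul_right h3 (by positivity)
  intro i hi
  rcases Nat.eq_zero_or_pos i with rfl | hpos
  · simp
  · obtain ⟨j, rfl⟩ : ∃ j, i = j + 1 := ⟨i - 1, by omega⟩
    obtain ⟨ha, hb⟩ := key j (by omega)
    refine le_trans ?_ hb
    calc Real.exp (l * ((j + 1 : ℕ) : ℝ) - k0 * ((j + 1 : ℕ) : ℝ) ^ 2) * h 0
        ≤ Real.exp (l - k0 * j + (l * j - k0 * (j : ℝ) ^ 2)) * h 0 := by
          apply mul_le_mul_of_nonneg_right _ h0p.le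
          apply Real.exp_le_exp.mpr
          push_cast
          have : 0 ≤ k0 * ((j : ℝ) + 1) := by positivity
          nlinarith
      _ = Real.exp (l - k0 * j) * (Real.exp (l * j - k0 * (j : ℝ) ^ 2) * h 0) := by
          rw [Real.exp_add]; ring
      _ ≤ _ := mul_le_mul_of_nonneg_left ha (Real.exp_pos _).le

theorem Qp_natDegree_le : ∀ n : ℕ, (Qp n).natDegree ≤ n := by
  intro n
  induction n using Nat.strong_induction_on with
  | _ n ih =>
    match n, ih with
    | 0, _ => simp [Qp]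
    | 1, _ => rw [Qp_one_eq, natDegree_C]; omega
    | m + 2, ih =>
      have h1 := ih (m + 1) (by omega)
      have h0 := ih m (by omega)
      rw [Qp]
      refine (natDegree_C_mul_le _ _).trans ?_
      refine (natDegree_add_le _ _).trans (max_le ((natDegree_add_le _ _).trans (max_le ?_ ?_)) ?_)
      · exact (natDegree_C_mul_le _ _).trans (by omega)
      · rw [mul_assoc]
        refine (natDegree_C_mul_le _ _).trans ?_
        refine natDegree_mul_le.trans ?_
        have := natDegree_X_le (R := ℝ)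
        omega
      · rw [three_eq_C]
        refine (natDegree_C_mul_le _ _).trans ?_
        refine natDegree_sum_le_of_forall_le _ _ fun i _ => ?_
        rw [mul_assoc]
        refine (natDegree_C_mul_le _ _).trans ?_
        refine natDegree_mul_le.trans ?_
        have e1 := ih i (by omega)
        have e2 := ih (m - i) (by omega)
        omega

theorem wN_nonneg (N n g : ℕ) : 0 ≤ wN N n g := by
  unfold wN
  have := Qp_coeff_nonneg n g
  have := yN_pos N n
  positivity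

theorem wN_sum (N n : ℕ) : ∑ g ∈ range (n + 1), wN N n g = 1 := by
  unfold wN
  rw [← sum_div, div_eq_one_iff_eq (yN_pos N n).ne']
  unfold yN
  rw [eval_eq_sum_range' (Nat.lt_succ_of_le (Qp_natDegree_le n))]

theorem wN_zero_of_gt (N n g : ℕ) (h : n < g) : wN N n g = 0 := by
  unfold wN
  rw [coeff_eq_zero_of_natDegree_lt (lt_of_le_of_lt (Qp_natDegree_le n) h)]
  simp

theorem wN_le_one (N n g : ℕ) : wN N n g ≤ 1 := by
  by_cases h : g ≤ n
  · rw [← wN_sum N n]
    exact single_le_sum (f := fun g => wN N n g) (fun _ _ => wN_nonneg _ _ _)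
      (mem_range.mpr (Nat.lt_succ_of_le h))
  · rw [wN_zero_of_gt N n g (by omega)]; norm_num

theorem exists_mode (N n : ℕ) : ∃ g, 1 / ((n : ℝ) + 1) ≤ wN N n g ∧ ∀ k, wN N n k ≤ wN N n g := by
  obtain ⟨g, hg, hmax⟩ := exists_max_image (range (n + 1)) (fun g => wN N n g) ⟨0, by simp⟩
  refine ⟨g, ?_, ?_⟩
  · by_contra hcon
    push Not at hcon
    have h1 : ∑ k ∈ range (n + 1), wN N n k < 1 := by
      calc ∑ k ∈ range (n + 1), wN N n k ≤ ∑ k ∈ range (n + 1), wN N n g := sum_le_sum hmax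
        _ = ((n : ℝ) + 1) * wN N n g := by simp
        _ < ((n : ℝ) + 1) * (1 / ((n : ℝ) + 1)) := by
            apply mul_lt_mul_of_pos_left hcon (by positivity)
        _ = 1 := by field_simp
    rw [wN_sum] at h1
    exact lt_irrefl _ h1
  · intro k
    by_cases hk : k ≤ n
    · exact hmax k (mem_range.mpr (Nat.lt_succ_of_le hk))
    · rw [wN_zero_of_gt N n k (by omega)]; exact wN_nonneg _ _ _

/-- lower bound near the mode, one scale -/
theorem near_mode (w : ℕ → ℝ) (n : ℕ) (hn : 1 ≤ n) (K c θ ε : ℝ) (hK : 0 < K) (hε : 0 < ε)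
    (hw0 : ∀ g, 0 ≤ w g)
    (hALC : ∀ g, Real.exp (-c * n) ≤ w (g + 1) → w (g + 1) ^ 2 ≤ Real.exp (K / n) * (w g * w (g + 2)))
    (g0 : ℕ) (hg0 : 1 / ((n : ℝ) + 1) ≤ w g0) (hmax : ∀ k, w k ≤ w g0) (hg0pos : 1 ≤ g0)
    (hg0θ : |(g0 : ℝ) - θ * n| ≤ ε * n)
    (hc : 8 * K * ε ^ 2 * n + Real.log (n + 1) ≤ c * n)
    (g : ℕ) (hgθ : |(g : ℝ) - θ * n| ≤ ε * n) :
    Real.exp (-(8 * K * ε ^ 2 * n + Real.log (n + 1))) ≤ w g := by
  have hnp : (0 : ℝ) < n := by exact_mod_cast hn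
  set k0 : ℝ := K / n with hk0
  have hk0p : 0 < k0 := by positivity
  have hA : Real.exp (-(Real.log (n + 1))) ≤ w g0 := by
    rw [Real.exp_neg, Real.exp_log (by positivity), ← one_div]; exact hg0
  have hw0p : 0 < w g0 := lt_of_lt_of_le (Real.exp_pos _) hA
  -- the square bound
  have hsqb : ∀ i : ℕ, (i : ℝ) ≤ 2 * ε * n → k0 * (i : ℝ) ^ 2 ≤ 4 * K * ε ^ 2 * n := by
    intro i hi
    have h1 : (i : ℝ) ^ 2 ≤ (2 * ε * n) ^ 2 := pow_le_pow_left₀ (Nat.cast_nonneg _) hi 2
    calc k0 * (i : ℝ) ^ 2 ≤ k0 * (2 * ε * n) ^ 2 := mul_le_mul_of_nonneg_left h1 hk0p.le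
      _ = 4 * K * ε ^ 2 * n := by rw [hk0]; field_simp; ring
  have hi2 : ∀ i : ℕ, (i : ℝ) ≤ (i : ℝ) ^ 2 := by
    intro i
    have : i ≤ i ^ 2 := Nat.le_self_pow (by norm_num) i
    exact_mod_cast this
  have hlow : ∀ i : ℕ, (i : ℝ) ≤ 2 * ε * n → -(8 * K * ε ^ 2 * n) ≤ -k0 * i - k0 * (i : ℝ) ^ 2 := by
    intro i hi
    have h1 := hsqb i hi
    have h2 : k0 * (i : ℝ) ≤ k0 * (i : ℝ) ^ 2 := mul_le_mul_of_nonneg_left (hi2 i) hk0p.le
    linarith
  have hceil : ∀ i : ℕ, i ≤ ⌊2 * ε * (n : ℝ)⌋₊ → (i : ℝ) ≤ 2 * ε * n := by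
    intro i hi
    exact (Nat.le_floor_iff (by positivity)).mp hi
  -- neighbours of the mode
  have hALC0 : w g0 ^ 2 ≤ Real.exp k0 * (w (g0 - 1) * w (g0 + 1)) := by
    obtain ⟨m, rfl⟩ : ∃ m, g0 = m + 1 := ⟨g0 - 1, by omega⟩
    have := hALC m (by
      refine le_trans (Real.exp_le_exp.mpr ?_) hA
      have : 0 ≤ 8 * K * ε ^ 2 * n := by positivity
      linarith)
    simpa using this
  have hr1 : Real.exp (-k0) * w g0 ≤ w (g0 + 1) := by
    have h2 : w g0 * w g0 ≤ (Real.exp k0 * w (g0 + 1)) * w g0 := by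
      calc w g0 * w g0 = w g0 ^ 2 := by ring
        _ ≤ Real.exp k0 * (w (g0 - 1) * w (g0 + 1)) := hALC0
        _ ≤ Real.exp k0 * (w g0 * w (g0 + 1)) := by
            apply mul_le_mul_of_nonneg_left _ (Real.exp_pos _).le
            exact mul_le_mul_of_nonneg_right (hmax _) (hw0 _)
        _ = _ := by ring
    have h3 := le_of_mul_le_mul_right h2 hw0p
    calc Real.exp (-k0) * w g0 ≤ Real.exp (-k0) * (Real.exp k0 * w (g0 + 1)) :=
          mul_le_mul_of_nonneg_left h3 (Real.exp_pos _).le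
      _ = w (g0 + 1) := by rw [← mul_assoc, ← Real.exp_add]; simp
  have hl1 : Real.exp (-k0) * w g0 ≤ w (g0 - 1) := by
    have h2 : w g0 * w g0 ≤ (Real.exp k0 * w (g0 - 1)) * w g0 := by
      calc w g0 * w g0 = w g0 ^ 2 := by ring
        _ ≤ Real.exp k0 * (w (g0 - 1) * w (g0 + 1)) := hALC0
        _ ≤ Real.exp k0 * (w (g0 - 1) * w g0) := by
            apply mul_le_mul_of_nonneg_left _ (Real.exp_pos _).le
            exact mul_le_mul_of_nonneg_left (hmax _) (hw0 _)
        _ = _ := by ring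
    have h3 := le_of_mul_le_mul_right h2 hw0p
    calc Real.exp (-k0) * w g0 ≤ Real.exp (-k0) * (Real.exp k0 * w (g0 - 1)) :=
          mul_le_mul_of_nonneg_left h3 (Real.exp_pos _).le
      _ = w (g0 - 1) := by rw [← mul_assoc, ← Real.exp_add]; simp
  have habs : |(g : ℝ) - g0| ≤ 2 * ε * n := by
    have : (g : ℝ) - g0 = (g - θ * n) - (g0 - θ * n) := by ring
    rw [this]
    exact (abs_sub _ _).trans (by linarith)
  have hfin : ∀ i : ℕ, i ≤ ⌊2 * ε * (n : ℝ)⌋₊ → ∀ x, Real.exp (-k0 * i - k0 * (i : ℝ) ^ 2) * w g0 ≤ x →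
      Real.exp (-(8 * K * ε ^ 2 * n + Real.log (n + 1))) ≤ x := by
    intro i hi x hx
    refine le_trans ?_ hx
    calc Real.exp (-(8 * K * ε ^ 2 * n + Real.log (n + 1)))
        = Real.exp (-(8 * K * ε ^ 2 * n)) * Real.exp (-(Real.log (n + 1))) := by
          rw [← Real.exp_add]; congr 1; ring
      _ ≤ Real.exp (-k0 * i - k0 * (i : ℝ) ^ 2) * w g0 := by
          apply mul_le_mul (Real.exp_le_exp.mpr (hlow i (hceil i hi))) hA (Real.exp_pos _).le
            (Real.exp_pos _).le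
  rcases le_total g0 g with hle | hle
  · -- to the right
    obtain ⟨i, rfl⟩ : ∃ i, g = g0 + i := ⟨g - g0, by omega⟩
    have hi : i ≤ ⌊2 * ε * (n : ℝ)⌋₊ := by
      rw [Nat.le_floor_iff (by positivity)]
      push_cast at habs
      have := le_abs_self ((g0 : ℝ) + i - g0)
      linarith
    refine hfin i hi _ ?_
    refine walk (fun i => w (g0 + i)) i (-k0) k0 (c * n) (Real.log (n + 1)) hk0p.le
      (by simpa using hA) (by simpa using hr1) ?_ ?_ i le_rfl
    · intro j hj hge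
      have := hALC (g0 + j) (by rw [neg_mul]; exact hge)
      simpa [add_assoc] using this
    · intro j hj
      have := hlow j (hceil j (hj.trans hi))
      linarith
  · obtain ⟨i, hi'⟩ : ∃ i, g0 = g + i := ⟨g0 - g, by omega⟩
    have hi : i ≤ ⌊2 * ε * (n : ℝ)⌋₊ := by
      rw [Nat.le_floor_iff (by positivity)]
      rw [hi'] at habs
      push_cast at habs
      have := neg_abs_le ((g : ℝ) - (g + i))
      linarith
    have hgi : g = g0 - i := by omega
    rw [hgi]
    refine hfin i hi _ ?_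
    refine walk (fun i => w (g0 - i)) i (-k0) k0 (c * n) (Real.log (n + 1)) hk0p.le
      (by simpa using hA) (by simpa using hl1) ?_ ?_ i le_rfl
    · intro j hj hge
      have hh := hALC (g0 - (j + 2)) (by
        rw [neg_mul]
        have : g0 - (j + 2) + 1 = g0 - (j + 1) := by omega
        rw [this]; exact hge)
      have e1 : g0 - (j + 2) + 1 = g0 - (j + 1) := by omega
      have e2 : g0 - (j + 2) + 2 = g0 - j := by omega
      rw [e1, e2] at hh
      calc w (g0 - (j + 1)) ^ 2 ≤ Real.exp k0 * (w (g0 - (j + 2)) * w (g0 - j)) := hh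
        _ = _ := by ring
    · intro j hj
      have := hlow j (hceil j (hj.trans hi))
      linarith

/-- no large jump, one scale, both directions -/
theorem no_jump (w : ℕ → ℝ) (n : ℕ) (hn : 1 ≤ n) (K c l η A : ℝ) (hK : 0 < K) (hη : 0 < η)
    (hηK : K * η ≤ l / 2) (hl : 0 < l)
    (hw1 : ∀ g, w g ≤ 1)
    (hALC : ∀ g, Real.exp (-c * n) ≤ w (g + 1) → w (g + 1) ^ 2 ≤ Real.exp (K / n) * (w g * w (g + 2)))
    (hc : A ≤ c * n) (hbig : A < (η * n - 1) * (l / 2))
    (g : ℕ) (hgn : η * n ≤ g) (h0 : Real.exp (-A) ≤ w g) (h1 : Real.exp (-A) ≤ w (g + 1)) :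
    w (g + 1) ≤ Real.exp l * w g ∧ w g ≤ Real.exp l * w (g + 1) := by
  have hnp : (0 : ℝ) < n := by exact_mod_cast hn
  set k0 : ℝ := K / n with hk0
  have hk0p : 0 < k0 := by positivity
  set L := ⌊η * (n : ℝ)⌋₊ with hL
  have hLr : (L : ℝ) ≤ η * n := Nat.floor_le (by positivity)
  have hLl : η * n - 1 < L := Nat.sub_one_lt_floor _
  have hi : ∀ i : ℕ, i ≤ L → (i : ℝ) * (l / 2) ≤ l * i - k0 * (i : ℝ) ^ 2 := by
    intro i hi
    have hir : (i : ℝ) ≤ η * n := le_trans (by exact_mod_cast hi) hLr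
    have h2 : k0 * (i : ℝ) ^ 2 ≤ K * η * i := by
      calc k0 * (i : ℝ) ^ 2 = k0 * i * i := by ring
        _ ≤ k0 * i * (η * n) := by
            apply mul_le_mul_of_nonneg_left hir; positivity
        _ = K * η * i := by rw [hk0]; field_simp
    have h3 : K * η * (i : ℝ) ≤ l / 2 * i := mul_le_mul_of_nonneg_right hηK (Nat.cast_nonneg _)
    linarith
  have hC : ∀ i : ℕ, i ≤ L → -(c * n) ≤ l * i - k0 * (i : ℝ) ^ 2 - A := by
    intro i hiL
    have h2 := hi i hiL
    have : 0 ≤ (i : ℝ) * (l / 2) := by positivity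
    linarith
  have hcontra : ∀ x y : ℝ, Real.exp (-A) ≤ x → Real.exp (l * L - k0 * (L : ℝ) ^ 2) * x ≤ y → 1 < y := by
    intro x y hx hxy
    refine lt_of_lt_of_le ?_ hxy
    have h2 := hi L le_rfl
    have h3 : A < (L : ℝ) * (l / 2) := lt_trans hbig (mul_lt_mul_of_pos_right hLl (by positivity))
    calc (1 : ℝ) < Real.exp (l * L - k0 * (L : ℝ) ^ 2 - A) := by
          rw [Real.one_lt_exp_iff]; linarith
      _ = Real.exp (l * L - k0 * (L : ℝ) ^ 2) * Real.exp (-A) := by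
          rw [← Real.exp_add]; rfl
      _ ≤ _ := mul_le_mul_of_nonneg_left hx (Real.exp_pos _).le
  constructor
  · by_contra hcon
    push Not at hcon
    have hw := walk (fun i => w (g + i)) L l k0 (c * n) A hk0p.le (by simpa using h0)
      (by simpa using hcon.le) (by
        intro j hj hge
        have := hALC (g + j) (by rw [neg_mul]; exact hge)
        simpa [add_assoc] using this) hC L le_rfl
    have := hcontra _ _ h0 hw
    exact absurd (hw1 (g + L)) (not_le.mpr this)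
  · by_contra hcon
    push Not at hcon
    have hLg : L ≤ g := by
      have : (L : ℝ) ≤ g := hLr.trans hgn
      exact_mod_cast this
    have hw := walk (fun i => w (g + 1 - i)) L l k0 (c * n) A hk0p.le (by simpa using h1)
      (by simpa using hcon.le) (by
        intro j hj hge
        have hh := hALC (g + 1 - (j + 2)) (by
          rw [neg_mul]
          have : g + 1 - (j + 2) + 1 = g + 1 - (j + 1) := by omega
          rw [this]; exact hge)
        have e1 : g + 1 - (j + 2) + 1 = g + 1 - (j + 1) := by omega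
        have e2 : g + 1 - (j + 2) + 2 = g + 1 - j := by omega
        rw [e1, e2] at hh
        calc w (g + 1 - (j + 1)) ^ 2 ≤ Real.exp k0 * (w (g + 1 - (j + 2)) * w (g + 1 - j)) := hh
          _ = _ := by ring) hC L le_rfl
    have := hcontra _ _ h1 hw
    exact absurd (hw1 (g + 1 - L)) (not_le.mpr this)

theorem log_small (δ D : ℝ) (hδ : 0 < δ) : ∀ᶠ n : ℕ in atTop, Real.log (n + 1) + D ≤ δ * n := by
  have ht : Tendsto (fun n : ℕ => (n : ℝ) + 1) atTop atTop :=
    tendsto_atTop_add_const_right _ _ tendsto_natCast_atTop_atTop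
  have h1 := (Real.isLittleO_log_id_atTop.comp_tendsto ht).bound (show 0 < δ / 4 by positivity)
  have h2 : ∀ᶠ n : ℕ in atTop, D ≤ δ / 2 * n :=
    (tendsto_natCast_atTop_atTop.const_mul_atTop (show 0 < δ / 2 by positivity)).eventually_ge_atTop D
  filter_upwards [h1, h2, eventually_ge_atTop 1] with n hn1 hn2 hn3
  have hn : (1 : ℝ) ≤ n := by exact_mod_cast hn3
  simp only [Function.comp, id, Real.norm_eq_abs] at hn1
  have h3 := le_abs_self (Real.log ((n : ℝ) + 1))
  rw [abs_of_nonneg (show (0 : ℝ) ≤ (n : ℝ) + 1 by positivity)] at hn1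
  nlinarith

theorem ratio_bound (hA : ALC) (θ τ : ℝ) (hθ : 0 < θ) (hτ : 0 < τ) (hM : ModeConc θ τ)
    (N : ℕ → ℕ) (hN : Tendsto N atTop atTop)
    (hNτ : Tendsto (fun n : ℕ => (n : ℝ) / (N n : ℝ)) atTop (𝓝 τ)) (l : ℝ) (hl : 0 < l) :
    ∃ ε : ℝ, 0 < ε ∧ ∀ᶠ n : ℕ in atTop, ∀ g : ℕ, |(g : ℝ) - θ * n| ≤ ε * n →
      |((g + 1 : ℕ) : ℝ) - θ * n| ≤ ε * n → 0 < wN (N n) n g ∧
      wN (N n) n (g + 1) ≤ Real.exp l * wN (N n) n g ∧
      wN (N n) n g ≤ Real.exp l * wN (N n) n (g + 1) := by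
  obtain ⟨K, c, hK, hc, hev⟩ := hA (τ / 2) (2 * τ) (by positivity) (by linarith)
  set η : ℝ := min (l / (2 * K)) (θ / 4) with hη
  have hηp : 0 < η := lt_min (by positivity) (by positivity)
  have hηK : K * η ≤ l / 2 := by
    have := min_le_left (l / (2 * K)) (θ / 4)
    calc K * η ≤ K * (l / (2 * K)) := mul_le_mul_of_nonneg_left this hK.le
      _ = l / 2 := by field_simp
  have hηθ : η ≤ θ / 4 := min_le_right _ _
  set ε : ℝ := min (min 1 (θ / 4)) (min (c / 2 / (8 * K)) (η * l / 8 / (8 * K))) with hε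
  have hεp : 0 < ε := lt_min (lt_min one_pos (by positivity)) (lt_min (by positivity) (by positivity))
  have hε1 : ε ≤ 1 := (min_le_left _ _).trans (min_le_left _ _)
  have hεθ : ε ≤ θ / 4 := (min_le_left _ _).trans (min_le_right _ _)
  have hεc : ε ≤ c / 2 / (8 * K) := (min_le_right _ _).trans (min_le_left _ _)
  have hεl : ε ≤ η * l / 8 / (8 * K) := (min_le_right _ _).trans (min_le_right _ _)
  have hε2 : ε ^ 2 ≤ ε := by nlinarith
  have hK1 : 8 * K * ε ^ 2 ≤ c / 2 := by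
    calc 8 * K * ε ^ 2 ≤ 8 * K * ε := mul_le_mul_of_nonneg_left hε2 (by positivity)
      _ ≤ 8 * K * (c / 2 / (8 * K)) := mul_le_mul_of_nonneg_left hεc (by positivity)
      _ = c / 2 := by field_simp
  have hK2 : 8 * K * ε ^ 2 ≤ η * l / 8 := by
    calc 8 * K * ε ^ 2 ≤ 8 * K * ε := mul_le_mul_of_nonneg_left hε2 (by positivity)
      _ ≤ 8 * K * (η * l / 8 / (8 * K)) := mul_le_mul_of_nonneg_left hεl (by positivity)
      _ = η * l / 8 := by field_simp
  refine ⟨ε, hεp, ?_⟩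
  obtain ⟨c1, hc1, hmode⟩ := hM N hNτ ε hεp
  have hwin1 : ∀ᶠ n : ℕ in atTop, τ / 2 < (n : ℝ) / (N n : ℝ) := hNτ.eventually (lt_mem_nhds (by linarith))
  have hwin2 : ∀ᶠ n : ℕ in atTop, (n : ℝ) / (N n : ℝ) < 2 * τ := hNτ.eventually (gt_mem_nhds (by linarith))
  have hbig : ∀ᶠ n : ℕ in atTop, 1 < θ / 2 * n :=
    (tendsto_natCast_atTop_atTop.const_mul_atTop (show 0 < θ / 2 by positivity)).eventually_gt_atTop 1
  filter_upwards [hN.eventually hev, hmode, hwin1, hwin2, hbig, hN.eventually (eventually_gt_atTop 0),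
    log_small (c / 2) 0 (by positivity), log_small (c1 / 2) 0 (by positivity),
    log_small (η * l / 4) (l / 2) (by positivity),
    eventually_ge_atTop 1] with n hevn hmoden hw1 hw2 hbign hNn hlog1 hlog2 hlog3 hn1 g hg hg'
  have hNp : (0 : ℝ) < N n := by exact_mod_cast hNn
  have hnp : (0 : ℝ) < n := by exact_mod_cast hn1
  have ht1 : τ / 2 * (N n : ℝ) ≤ n := by
    rw [lt_div_iff₀ hNp] at hw1; exact hw1.le
  have ht2 : (n : ℝ) ≤ 2 * τ * (N n : ℝ) := by
    rw [div_lt_iff₀ hNp] at hw2; exact hw2.le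
  have hALC : ∀ g, Real.exp (-c * n) ≤ wN (N n) n (g + 1) →
      wN (N n) n (g + 1) ^ 2 ≤ Real.exp (K / n) * (wN (N n) n g * wN (N n) n (g + 2)) := by
    intro g hge
    refine (hevn n ht1 ht2 g hge).trans ?_
    apply mul_le_mul_of_nonneg_right _ (mul_nonneg (wN_nonneg _ _ _) (wN_nonneg _ _ _))
    have := Real.add_one_le_exp (K / (n : ℝ))
    linarith
  obtain ⟨g0, hg0, hmax⟩ := exists_mode (N n) n
  have hg0θ : |(g0 : ℝ) - θ * n| ≤ ε * n := by
    by_contra hcon
    push Not at hcon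
    have h2 := hmoden g0 hcon.le
    have h3 : Real.exp (-c1 * n) < 1 / ((n : ℝ) + 1) := by
      rw [one_div, ← Real.exp_log (show (0 : ℝ) < (n : ℝ) + 1 by positivity), ← Real.exp_neg]
      apply Real.exp_lt_exp.mpr
      have : 0 < c1 * (n : ℝ) := by positivity
      linarith
    linarith
  have hg0pos : 1 ≤ g0 := by
    have h2 := neg_abs_le ((g0 : ℝ) - θ * n)
    have h3 : ε * n ≤ θ / 4 * n := mul_le_mul_of_nonneg_right hεθ hnp.le
    have h4 : (0 : ℝ) < g0 := by nlinarith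
    exact_mod_cast h4
  set A : ℝ := 8 * K * ε ^ 2 * n + Real.log (n + 1) with hAdef
  have h5 : 8 * K * ε ^ 2 * n ≤ c / 2 * n := mul_le_mul_of_nonneg_right hK1 hnp.le
  have h6 : 8 * K * ε ^ 2 * n ≤ η * l / 8 * n := mul_le_mul_of_nonneg_right hK2 hnp.le
  have hAc : A ≤ c * n := by rw [hAdef]; linarith
  have hlow := fun g hg => near_mode (fun g => wN (N n) n g) n hn1 K c θ ε hK hεp (fun g => wN_nonneg _ _ _) hALC g0 hg0
    hmax hg0pos hg0θ hAc g hg
  have hlow0 := hlow g hg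
  have hlow1 := hlow (g + 1) hg'
  refine ⟨lt_of_lt_of_le (Real.exp_pos _) hlow0, ?_⟩
  refine no_jump (fun g => wN (N n) n g) n hn1 K c l η A hK hηp hηK hl (fun g => wN_le_one _ _ _) hALC hAc ?_ g ?_ hlow0 hlow1
  · have h7 : 0 < η * l * n := by positivity
    rw [hAdef]
    have e : (η * n - 1) * (l / 2) = η * l / 2 * n - l / 2 := by ring
    rw [e]
    linarith
  · have h2 := neg_abs_le ((g : ℝ) - θ * n)
    have h3 : ε * n ≤ θ / 4 * n := mul_le_mul_of_nonneg_right hεθ hnp.le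
    have h4 : η * n ≤ θ / 4 * n := mul_le_mul_of_nonneg_right hηθ hnp.le
    nlinarith

/-- **B5b.** The limit of the ratio of coefficients. -/
theorem final (hA : ALC) (θ τ : ℝ) (hθ : 0 < θ) (hτ : 0 < τ) (hM : ModeConc θ τ)
    (gs : ℕ → ℕ) (hgs : Tendsto (fun n : ℕ => (gs n : ℝ) / n) atTop (𝓝 θ)) :
    Tendsto (fun n : ℕ => (Qp n).coeff (gs n) / ((n : ℝ) ^ 2 * (Qp n).coeff (gs n - 1))) atTop
      (𝓝 (1 / τ ^ 2)) := by
  set N : ℕ → ℕ := fun n => ⌈1 / τ * (n : ℝ)⌉₊ with hNdef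
  have hNn : Tendsto (fun n : ℕ => (N n : ℝ) / n) atTop (𝓝 (1 / τ)) :=
    (tendsto_nat_ceil_mul_div_atTop (show (0 : ℝ) ≤ 1 / τ by positivity)).comp
      tendsto_natCast_atTop_atTop
  have hN : Tendsto N atTop atTop := by
    have h1 : Tendsto (fun n : ℕ => 1 / τ * (n : ℝ)) atTop atTop :=
      tendsto_natCast_atTop_atTop.const_mul_atTop (by positivity)
    exact tendsto_nat_ceil_atTop.comp h1
  have hNτ : Tendsto (fun n : ℕ => (n : ℝ) / (N n : ℝ)) atTop (𝓝 τ) := by
    have h1 := hNn.inv₀ (by positivity)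
    rw [one_div, inv_inv] at h1
    refine h1.congr fun n => ?_
    rw [inv_div]
  -- the ratio of weights tends to 1
  have hR : Tendsto (fun n : ℕ => wN (N n) n (gs n) / wN (N n) n (gs n - 1)) atTop (𝓝 1) := by
    rw [Metric.tendsto_nhds]
    intro δ hδ
    -- choose l with exp l < 1 + δ, exp (-l) > 1 - δ
    obtain ⟨l, hl, hl1, hl2⟩ : ∃ l : ℝ, 0 < l ∧ Real.exp l < 1 + δ ∧ 1 - δ < Real.exp (-l) := by
      have c1 : Tendsto (fun l : ℝ => Real.exp l) (𝓝[>] 0) (𝓝 1) := by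
        have := (Real.continuous_exp.tendsto 0).mono_left (nhdsWithin_le_nhds (s := Set.Ioi (0 : ℝ)))
        rwa [Real.exp_zero] at this
      have c2 : Tendsto (fun l : ℝ => Real.exp (-l)) (𝓝[>] 0) (𝓝 1) := by
        have := ((Real.continuous_exp.comp continuous_neg).tendsto 0).mono_left
          (nhdsWithin_le_nhds (s := Set.Ioi (0 : ℝ)))
        simpa [Function.comp_def] using this
      have e1 := c1.eventually (gt_mem_nhds (show (1 : ℝ) < 1 + δ by linarith))
      have e2 := c2.eventually (lt_mem_nhds (show (1 : ℝ) - δ < 1 by linarith))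
      have e3 : ∀ᶠ l : ℝ in 𝓝[>] 0, 0 < l := self_mem_nhdsWithin
      obtain ⟨l, h1, h2, h3⟩ := (e1.and (e2.and e3)).exists
      exact ⟨l, h3, h1, h2⟩
    obtain ⟨ε, hε, hev⟩ := ratio_bound hA θ τ hθ hτ hM N hN hNτ l hl
    have hg1 : ∀ᶠ n : ℕ in atTop, |(gs n : ℝ) / n - θ| < ε / 2 := by
      have := (Metric.tendsto_nhds.mp hgs) (ε / 2) (by positivity)
      simpa [Real.dist_eq] using this
    have hg2 : ∀ᶠ n : ℕ in atTop, θ / 2 < (gs n : ℝ) / n := hgs.eventually (lt_mem_nhds (by linarith))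
    have hg3 : ∀ᶠ n : ℕ in atTop, 1 ≤ ε / 2 * n :=
      (tendsto_natCast_atTop_atTop.const_mul_atTop (show 0 < ε / 2 by positivity)).eventually_ge_atTop 1
    filter_upwards [hev, hg1, hg2, hg3, eventually_ge_atTop 1] with n hevn h1 h2 h3 h4
    have hnp : (0 : ℝ) < n := by exact_mod_cast h4
    have hgpos : 1 ≤ gs n := by
      have : 0 < (gs n : ℝ) / n := lt_trans (by positivity) h2
      have : (0 : ℝ) < gs n := by
        rcases (div_pos_iff.mp this) with h | h
        · exact h.1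
        · exact absurd h.2 (not_lt.mpr hnp.le)
      exact_mod_cast this
    have hb : |(gs n : ℝ) - θ * n| ≤ ε / 2 * n := by
      have e : (gs n : ℝ) - θ * n = ((gs n : ℝ) / n - θ) * n := by field_simp
      rw [e, abs_mul, abs_of_pos hnp]
      exact mul_le_mul_of_nonneg_right h1.le hnp.le
    obtain ⟨m, hm⟩ : ∃ m, gs n = m + 1 := ⟨gs n - 1, by omega⟩
    have hb1 : |((m + 1 : ℕ) : ℝ) - θ * n| ≤ ε * n := by
      rw [← hm]
      have : 0 ≤ ε / 2 * (n : ℝ) := by positivity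
      linarith
    have hb0 : |(m : ℝ) - θ * n| ≤ ε * n := by
      have e : (m : ℝ) - θ * n = ((gs n : ℝ) - θ * n) - 1 := by rw [hm]; push_cast; ring
      rw [e]
      refine (abs_sub _ _).trans ?_
      rw [abs_one]
      linarith
    obtain ⟨p0, q1, q2⟩ := hevn m hb0 hb1
    rw [hm, Nat.add_sub_cancel, Real.dist_eq, abs_lt]
    constructor
    · have : Real.exp (-l) ≤ wN (N n) n (m + 1) / wN (N n) n m := by
        rw [le_div_iff₀ p0]
        calc Real.exp (-l) * wN (N n) n m ≤ Real.exp (-l) * (Real.exp l * wN (N n) n (m + 1)) :=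
              mul_le_mul_of_nonneg_left q2 (Real.exp_pos _).le
          _ = _ := by rw [← mul_assoc, ← Real.exp_add]; simp
      linarith
    · have : wN (N n) n (m + 1) / wN (N n) n m ≤ Real.exp l := by
        rw [div_le_iff₀ p0]; exact q1
      linarith
  have hfin := hR.mul (hNn.pow 2)
  rw [one_mul, div_pow, one_pow] at hfin
  refine hfin.congr' ?_
  have hg2 : ∀ᶠ n : ℕ in atTop, θ / 2 < (gs n : ℝ) / n := hgs.eventually (lt_mem_nhds (by linarith))
  filter_upwards [hg2, eventually_ge_atTop 1, hN.eventually (eventually_gt_atTop 0)] with n h2 h4 hNn0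
  have hnp : (0 : ℝ) < n := by exact_mod_cast h4
  have hNp : (0 : ℝ) < N n := by exact_mod_cast hNn0
  have hgpos : 1 ≤ gs n := by
    have : 0 < (gs n : ℝ) / n := lt_trans (by positivity) h2
    have : (0 : ℝ) < gs n := by
      rcases (div_pos_iff.mp this) with h | h
      · exact h.1
      · exact absurd h.2 (not_lt.mpr hnp.le)
    exact_mod_cast this
  obtain ⟨m, hm⟩ : ∃ m, gs n = m + 1 := ⟨gs n - 1, by omega⟩
  rw [hm, Nat.add_sub_cancel]
  unfold wN
  have hy := (yN_pos (N n) n).ne'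
  have hNne : (N n : ℝ) ≠ 0 := hNp.ne'
  by_cases hz : (Qp n).coeff m = 0
  · simp [hz]
  · have hzN : (1 / (N n : ℝ) ^ 2) * (N n : ℝ) ^ 2 = 1 := by field_simp
    have hzp : (1 / (N n : ℝ) ^ 2) ^ m ≠ 0 := pow_ne_zero _ (by positivity)
    rw [pow_succ]
    generalize (1 / (N n : ℝ) ^ 2) ^ m = u at hzp ⊢
    generalize hv : (1 / (N n : ℝ) ^ 2) = v at hzN ⊢
    have e : (Qp n).coeff (m + 1) * (u * v) / yN (N n) n / ((Qp n).coeff m * u / yN (N n) n) *
        ((N n : ℝ) / n) ^ 2 = (Qp n).coeff (m + 1) / ((n : ℝ) ^ 2 * (Qp n).coeff m) *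
        (v * (N n : ℝ) ^ 2) := by
      field_simp
    rw [e, hzN, mul_one]

end Pool.Agent.H51.Quad
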